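import Pool.Agent.MP_f363fd_co.Defs

-- part MP_f363fd_co.Basic
section

namespace Pool.Agent.MP_f363fd_co

open Finset

open Classical in
/-- Real valued indicator of a proposition. -/
noncomputable def ind (p : Prop) : ℝ := if p then 1 else 0

lemma ind_pos {p : Prop} (h : p) : ind p = 1 := if_pos h
lemma ind_neg {p : Prop} (h : ¬ p) : ind p = 0 := if_neg h
lemma ind_nonneg (p : Prop) : 0 ≤ ind p := by unfold ind; split_ifs <;> norm_num
lemma ind_congr {p q : Prop} (h : p ↔ q) : ind p = ind q := by rw [propext h]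
lemma ind_mono {p q : Prop} (h : p → q) : ind p ≤ ind q := by
  by_cases hp : p
  · rw [ind_pos hp, ind_pos (h hp)]
  · rw [ind_neg hp]; exact ind_nonneg q
lemma ind_le_add {p q r : Prop} (h : p → q ∨ r) : ind p ≤ ind q + ind r := by
  by_cases hp : p
  · rw [ind_pos hp]
    rcases h hp with h | h
    · rw [ind_pos h]; linarith [ind_nonneg r]
    · rw [ind_pos h]; linarith [ind_nonneg q]
  · rw [ind_neg hp]; linarith [ind_nonneg q, ind_nonneg r]
lemma ind_and (p q : Prop) : ind (p ∧ q) = ind p * ind q := by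
  by_cases hp : p <;> by_cases hq : q <;> simp [ind, hp, hq]
lemma ind_not (p : Prop) : ind (¬ p) = 1 - ind p := by
  by_cases hp : p <;> simp [ind, hp]

lemma sum_ind_eq {ι : Type*} [Fintype ι] (a : ι) (P : ι → Prop) :
    ∑ k, ind (a = k ∧ P k) = ind (P a) := by
  rw [Finset.sum_eq_single a]
  · simp
  · intro k _ hk
    exact ind_neg fun h => hk h.1.symm
  · simp

variable {V : Type} [Fintype V] (Γ : SimpleGraph V)

/-- Size of a set. -/
noncomputable def sz (S : Set V) : ℝ := ∑ x, ind (x ∈ S)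

/-- Size of the edge boundary of a set. -/
noncomputable def bd (S : Set V) : ℝ := ∑ x, ∑ y, ind (x ∈ S ∧ Γ.Adj x y ∧ y ∉ S)

/-- Number of neighbours with a different label. -/
noncomputable def cut {ι : Type*} (φ : V → ι) (x : V) : ℝ := ∑ y, ind (Γ.Adj x y ∧ φ y ≠ φ x)

lemma sz_eq_ncard (S : Set V) : sz S = S.ncard := by
  classical
  unfold sz ind
  rw [Finset.sum_boole, Set.ncard_eq_toFinset_card']
  congr 2
  ext x; simp

lemma bd_eq_ncard (S : Set V) : bd Γ S = (edgeBoundary Γ S).ncard := by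
  classical
  have h1 : edgeBoundary Γ S =
      (fun p : V × V => s(p.1, p.2)) '' {p | p.1 ∈ S ∧ Γ.Adj p.1 p.2 ∧ p.2 ∉ S} := by
    ext e
    constructor
    · rintro ⟨he, x, hx, y, hy, rfl⟩
      exact ⟨(x, y), ⟨hx, he, hy⟩, rfl⟩
    · rintro ⟨⟨x, y⟩, ⟨hx, he, hy⟩, rfl⟩
      exact ⟨he, x, hx, y, hy, rfl⟩
  rw [h1, Set.InjOn.ncard_image, ← sz_eq_ncard, sz, bd, Fintype.sum_prod_type]
  · rfl
  · rintro ⟨x, y⟩ ⟨hx, -, hy⟩ ⟨x', y'⟩ ⟨hx', -, hy'⟩ h
    rcases Sym2.eq_iff.mp h with ⟨rfl, rfl⟩ | ⟨rfl, rfl⟩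
    · rfl
    · exact absurd hx hy'

lemma sz_nonneg (S : Set V) : 0 ≤ sz S := sum_nonneg fun _ _ => ind_nonneg _

lemma sz_pos {S : Set V} (h : S.Nonempty) : 0 < sz S := by
  obtain ⟨x, hx⟩ := h
  refine sum_pos' (fun _ _ => ind_nonneg _) ⟨x, mem_univ _, ?_⟩
  rw [ind_pos hx]; norm_num

lemma sz_empty : sz (∅ : Set V) = 0 := by simp [sz, ind]

lemma sz_univ : sz (Set.univ : Set V) = Fintype.card V := by simp [sz, ind]

lemma sz_mono {S T : Set V} (h : S ⊆ T) : sz S ≤ sz T :=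
  sum_le_sum fun _ _ => ind_mono fun hx => h hx

lemma sz_diff {S T : Set V} (h : S ⊆ T) : sz (T \ S) = sz T - sz S := by
  unfold sz
  rw [← sum_sub_distrib]
  refine sum_congr rfl fun x _ => ?_
  by_cases hS : x ∈ S
  · simp [ind, hS, h hS]
  · rw [ind_neg hS, sub_zero]
    exact ind_congr ⟨fun h => h.1, fun h => ⟨h, hS⟩⟩

lemma sz_add_le {S T U : Set V} (hS : S ⊆ U) (hT : T ⊆ U) (h : Disjoint S T) :
    sz S + sz T ≤ sz U := by
  have h1 := sz_diff hS
  have h2 : sz T ≤ sz (U \ S) := sz_mono fun x hx => ⟨hT hx, fun hx' => Set.disjoint_left.mp h hx' hx⟩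
  linarith

lemma bd_nonneg (S : Set V) : 0 ≤ bd Γ S :=
  sum_nonneg fun _ _ => sum_nonneg fun _ _ => ind_nonneg _

lemma cut_nonneg {ι : Type*} (φ : V → ι) (x : V) : 0 ≤ cut Γ φ x :=
  sum_nonneg fun _ _ => ind_nonneg _

lemma bd_compl (S : Set V) : bd Γ Sᶜ = bd Γ S := by
  unfold bd
  rw [sum_comm]
  refine sum_congr rfl fun x _ => sum_congr rfl fun y _ => ind_congr ?_
  simp only [Set.mem_compl_iff, not_not, Γ.adj_comm y x]
  tauto

lemma bd_inter (S T : Set V) : bd Γ (S ∩ T) ≤ bd Γ S + bd Γ T := by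
  unfold bd
  rw [← sum_add_distrib]
  refine sum_le_sum fun x _ => ?_
  rw [← sum_add_distrib]
  refine sum_le_sum fun y _ => ind_le_add ?_
  simp only [Set.mem_inter_iff]
  tauto

lemma bd_diff (S T : Set V) : bd Γ (T \ S) ≤ bd Γ T + bd Γ S := by
  rw [Set.sdiff_eq, ← bd_compl Γ S]
  exact bd_inter Γ T Sᶜ

lemma sum_bd_inter_fiber {ι : Type*} [Fintype ι] (φ : V → ι) (W : Set V) :
    ∑ k, bd Γ (W ∩ φ ⁻¹' {k}) ≤ bd Γ W + ∑ x, ind (x ∈ W) * cut Γ φ x := by
  unfold bd cut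
  rw [sum_comm, ← sum_add_distrib]
  refine sum_le_sum fun x _ => ?_
  rw [sum_comm, mul_sum, ← sum_add_distrib]
  refine sum_le_sum fun y _ => ?_
  have : ∀ k, ind (x ∈ W ∩ φ ⁻¹' {k} ∧ Γ.Adj x y ∧ y ∉ W ∩ φ ⁻¹' {k}) =
      ind (φ x = k ∧ (x ∈ W ∧ Γ.Adj x y ∧ ¬ (y ∈ W ∧ φ y = k))) := by
    intro k
    refine ind_congr ?_
    simp only [Set.mem_inter_iff, Set.mem_preimage, Set.mem_singleton_iff]
    tauto
  simp only [this]
  rw [sum_ind_eq (φ x) (fun k => x ∈ W ∧ Γ.Adj x y ∧ ¬ (y ∈ W ∧ φ y = k)), ← ind_and]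
  refine ind_le_add ?_
  tauto

lemma sum_bd_fiber {ι : Type*} [Fintype ι] (φ : V → ι) :
    ∑ k, bd Γ (φ ⁻¹' {k}) = ∑ x, cut Γ φ x := by
  unfold bd cut
  rw [sum_comm]
  refine sum_congr rfl fun x _ => ?_
  rw [sum_comm]
  refine sum_congr rfl fun y _ => ?_
  have : ∀ k, ind (x ∈ φ ⁻¹' {k} ∧ Γ.Adj x y ∧ y ∉ φ ⁻¹' {k}) =
      ind (φ x = k ∧ (Γ.Adj x y ∧ φ y ≠ k)) := fun k => rfl
  simp only [this]
  rw [sum_ind_eq (φ x) (fun k => Γ.Adj x y ∧ φ y ≠ k)]

lemma sum_sz_inter_fiber {ι : Type*} [Fintype ι] (φ : V → ι) (W : Set V) (P : ι → Prop) :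
    ∑ k, ind (P k) * sz (W ∩ φ ⁻¹' {k}) = ∑ x, ind (x ∈ W ∧ P (φ x)) := by
  unfold sz
  simp only [mul_sum]
  rw [sum_comm]
  refine sum_congr rfl fun x _ => ?_
  rw [← sum_ind_eq (φ x) (fun k => x ∈ W ∧ P k)]
  refine sum_congr rfl fun k _ => ?_
  rw [← ind_and]
  refine ind_congr ?_
  simp only [Set.mem_inter_iff, Set.mem_preimage, Set.mem_singleton_iff]
  tauto

lemma sum_sz_fiber {ι : Type*} [Fintype ι] (φ : V → ι) (W : Set V) :
    ∑ k, sz (W ∩ φ ⁻¹' {k}) = sz W := by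
  have := sum_sz_inter_fiber φ W (fun _ => True)
  simpa [ind_pos, sz] using this

lemma bd_le_cut {ι : Type*} (φ : V → ι) (W : Set V) (hW : ∀ x y, φ y = φ x → x ∈ W → y ∈ W) :
    bd Γ W ≤ ∑ x, ind (x ∈ W) * cut Γ φ x := by
  unfold bd cut
  refine sum_le_sum fun x _ => ?_
  rw [mul_sum]
  refine sum_le_sum fun y _ => ?_
  rw [← ind_and]
  exact ind_mono fun h => ⟨h.1, h.2.1, fun h' => h.2.2 (hW x y h' h.1)⟩

variable {Γ}

lemma sz_preimage (g : Γ ≃g Γ) (S : Set V) : sz (g ⁻¹' S) = sz S :=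
  Equiv.sum_comp g.toEquiv (fun x => ind (x ∈ S))

lemma bd_preimage (g : Γ ≃g Γ) (S : Set V) : bd Γ (g ⁻¹' S) = bd Γ S := by
  unfold bd
  rw [← Equiv.sum_comp g.toEquiv (fun x => ∑ y, ind (x ∈ S ∧ Γ.Adj x y ∧ y ∉ S))]
  refine sum_congr rfl fun x _ => ?_
  rw [← Equiv.sum_comp g.toEquiv (fun y => ind (g.toEquiv x ∈ S ∧ Γ.Adj (g.toEquiv x) y ∧ y ∉ S))]
  refine sum_congr rfl fun y _ => ind_congr ?_
  simp [g.map_adj_iff]

lemma cut_comp {ι : Type*} (φ : V → ι) (g : Γ ≃g Γ) (x : V) :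
    cut Γ (φ ∘ g) x = cut Γ φ (g x) := by
  unfold cut
  rw [← Equiv.sum_comp g.toEquiv (fun y => ind (Γ.Adj (g x) y ∧ φ y ≠ φ (g x)))]
  refine sum_congr rfl fun y _ => ind_congr ?_
  simp [g.map_adj_iff]

lemma card_mul_eq_sum (ht : IsVertexTransitive Γ) (Φ : V → ℝ)
    (hΦ : ∀ (g : Γ ≃g Γ) (x : V), Φ (g x) = Φ x) (x : V) :
    (Fintype.card V : ℝ) * Φ x = ∑ z, Φ z := by
  have : ∀ z, Φ z = Φ x := by
    intro z
    obtain ⟨g, rfl⟩ := ht x z
    exact hΦ g x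
  simp [this]

lemma sum_aut_comp [Fintype (Γ ≃g Γ)] (ht : IsVertexTransitive Γ) (ψ : V → ℝ) (x : V) :
    (Fintype.card V : ℝ) * ∑ g : Γ ≃g Γ, ψ (g x) = Fintype.card (Γ ≃g Γ) * ∑ z, ψ z := by
  rw [card_mul_eq_sum ht (fun x => ∑ g : Γ ≃g Γ, ψ (g x)), sum_comm]
  · have : ∀ g : Γ ≃g Γ, ∑ z, ψ (g z) = ∑ z, ψ z := fun g => Equiv.sum_comp g.toEquiv ψ
    simp [this]
  · intro h x
    exact Equiv.sum_comp (Equiv.mulRight h) (fun g : Γ ≃g Γ => ψ (g x))

end Pool.Agent.MP_f363fd_co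

end

-- part MP_f363fd_co.Gap
section

namespace Pool.Agent.MP_f363fd_co

open Finset Function

set_option linter.unusedSectionVars false

variable {V : Type} [Fintype V] {Γ : SimpleGraph V} {n : ℕ} {t : ℝ}

/-- A partition into `n` parts all of whose parts have expansion at most `t`. -/
structure Good (Γ : SimpleGraph V) (t : ℝ) (f : V → Fin n) : Prop where
  surj : Surjective f
  le : ∀ i, bd Γ (f ⁻¹' {i}) ≤ t * sz (f ⁻¹' {i})

/-- Every partition into `n + 1` parts has a part of expansion at least `22 t`. -/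
def Hyp (Γ : SimpleGraph V) (n : ℕ) (t : ℝ) : Prop :=
  ∀ F : V → Fin (n + 1), Surjective F → ∃ i, 22 * t * sz (F ⁻¹' {i}) ≤ bd Γ (F ⁻¹' {i})

lemma Good.comp {f : V → Fin n} (hf : Good Γ t f) (g : Γ ≃g Γ) : Good Γ t (f ∘ g) where
  surj := hf.surj.comp g.surjective
  le i := by
    rw [Set.preimage_comp, bd_preimage, sz_preimage]
    exact hf.le i

lemma Good.sum_cut_le {f : V → Fin n} (hf : Good Γ t f) :
    ∑ x, cut Γ f x ≤ t * Fintype.card V := by
  rw [← sum_bd_fiber, ← sz_univ, ← sum_sz_fiber f Set.univ, mul_sum]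
  refine sum_le_sum fun k _ => ?_
  rw [Set.univ_inter]
  exact hf.le k

lemma small_expand (ht : 0 < t) (H : Hyp Γ n t) {f : V → Fin n} (hf : Good Γ t f) (k : Fin n)
    {S : Set V} (hS : S ⊆ f ⁻¹' {k}) (h2 : 2 * sz S ≤ sz (f ⁻¹' {k})) :
    20 * t * sz S ≤ bd Γ S := by
  classical
  rcases S.eq_empty_or_nonempty with rfl | hne
  · rw [sz_empty, mul_zero]; exact bd_nonneg Γ _
  have hpos := sz_pos hne
  let F : V → Fin (n + 1) := fun x => if x ∈ S then Fin.last n else (f x).castSucc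
  have hlast : F ⁻¹' {Fin.last n} = S := by
    ext x
    by_cases hx : x ∈ S <;> simp [F, hx, Fin.castSucc_ne_last]
  have hcast : ∀ j : Fin n, F ⁻¹' {j.castSucc} = f ⁻¹' {j} \ S := by
    intro j
    ext x
    by_cases hx : x ∈ S <;> simp [F, hx, (Fin.castSucc_ne_last _).symm]
  have hne' : ∀ j, j ≠ k → f ⁻¹' {j} \ S = f ⁻¹' {j} := by
    intro j hj
    ext x
    constructor
    · exact fun h => h.1
    · exact fun h => ⟨h, fun hx => hj (h.symm.trans (hS hx))⟩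
  have hd := sz_diff hS
  have hF : Surjective F := by
    intro i
    have : (F ⁻¹' {i}).Nonempty := by
      induction i using Fin.lastCases with
      | last => rwa [hlast]
      | cast j =>
        rw [hcast]
        by_cases hj : j = k
        · subst hj
          by_contra h0
          rw [Set.not_nonempty_iff_eq_empty.mp h0, sz_empty] at hd
          linarith
        · rw [hne' j hj]
          exact hf.surj j
    exact this
  obtain ⟨i, hi⟩ := H F hF
  induction i using Fin.lastCases with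
  | last =>
    rw [hlast] at hi
    nlinarith
  | cast j =>
    rw [hcast] at hi
    by_cases hj : j = k
    · subst hj
      have h3 := bd_diff Γ S (f ⁻¹' {j})
      have h4 := hf.le j
      rw [hd] at hi
      nlinarith
    · rw [hne' j hj] at hi
      have h4 := hf.le j
      have h5 : 0 < sz (f ⁻¹' {j}) := sz_pos (hf.surj j)
      nlinarith

/-- `W` occupies at most half of the part of `x`. -/
def Small (f : V → Fin n) (W : Set V) (x : V) : Prop :=
  2 * sz (W ∩ f ⁻¹' {f x}) ≤ sz (f ⁻¹' {f x})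

lemma small_or {f : V → Fin n} {W W' : Set V} (h : Disjoint W W') {x y : V} (hxy : f x = f y) :
    Small f W x ∨ Small f W' y := by
  unfold Small
  rw [← hxy]
  have := sz_add_le (S := W ∩ f ⁻¹' {f x}) (T := W' ∩ f ⁻¹' {f x}) (U := f ⁻¹' {f x})
    Set.inter_subset_right Set.inter_subset_right
    (h.mono Set.inter_subset_left Set.inter_subset_left)
  by_contra hc
  push Not at hc
  linarith [hc.1, hc.2]

lemma small_count (ht : 0 < t) (H : Hyp Γ n t) {f : V → Fin n} (hf : Good Γ t f) (W : Set V) :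
    20 * t * ∑ x, ind (x ∈ W ∧ Small f W x) ≤ bd Γ W + ∑ x, ind (x ∈ W) * cut Γ f x := by
  refine le_trans ?_ (sum_bd_inter_fiber Γ f W)
  unfold Small
  rw [← sum_sz_inter_fiber f W (fun k => 2 * sz (W ∩ f ⁻¹' {k}) ≤ sz (f ⁻¹' {k})), mul_sum]
  refine sum_le_sum fun k _ => ?_
  by_cases hk : 2 * sz (W ∩ f ⁻¹' {k}) ≤ sz (f ⁻¹' {k})
  · rw [ind_pos hk, one_mul]
    exact small_expand ht H hf k Set.inter_subset_right hk
  · rw [ind_neg hk, zero_mul, mul_zero]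
    exact bd_nonneg Γ _

lemma small_count_two (ht : 0 < t) (H : Hyp Γ n t) {f f' : V → Fin n} (hf : Good Γ t f)
    (hf' : Good Γ t f') :
    10 * ∑ x, ind (Small f (f' ⁻¹' {f' x}) x) ≤ Fintype.card V := by
  have h1 := sum_le_sum fun j (_ : j ∈ univ) => small_count ht H hf (f' ⁻¹' {j})
  rw [← mul_sum, sum_add_distrib, sum_bd_fiber, sum_comm, sum_comm (s := univ (α := Fin n))] at h1
  have h2 : ∀ x, ∑ j, ind (x ∈ f' ⁻¹' {j} ∧ Small f (f' ⁻¹' {j}) x) =
      ind (Small f (f' ⁻¹' {f' x}) x) := fun x =>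
    sum_ind_eq (f' x) (fun j => Small f (f' ⁻¹' {j}) x)
  have h3 : ∀ x, ∑ j, ind (x ∈ f' ⁻¹' {j}) * cut Γ f x = cut Γ f x := by
    intro x
    rw [← sum_mul]
    have := sum_ind_eq (f' x) (fun _ => True)
    simp only [and_true] at this
    have h4 : ∑ j, ind (x ∈ f' ⁻¹' {j}) = 1 := by
      rw [← ind_pos trivial, ← this]; rfl
    rw [h4, one_mul]
  simp only [h2, h3] at h1
  have h4 := hf.sum_cut_le
  have h5 := hf'.sum_cut_le
  have h6 : t * (10 * ∑ x, ind (Small f (f' ⁻¹' {f' x}) x)) ≤ t * Fintype.card V := by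
    linarith
  exact le_of_mul_le_mul_left h6 ht

variable [Fintype (Γ ≃g Γ)]

variable (Γ) in
/-- The number of automorphisms after which `x` and `y` lie in different parts. -/
noncomputable def sep (f : V → Fin n) (x y : V) : ℝ := ∑ g : Γ ≃g Γ, ind (f (g x) ≠ f (g y))

lemma sep_self (f : V → Fin n) (x : V) : sep Γ f x x = 0 := by simp [sep, ind]

lemma sep_symm (f : V → Fin n) (x y : V) : sep Γ f x y = sep Γ f y x :=
  sum_congr rfl fun _ _ => ind_congr ne_comm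

lemma sep_triangle (f : V → Fin n) (x y z : V) : sep Γ f x z ≤ sep Γ f x y + sep Γ f y z := by
  unfold sep
  rw [← sum_add_distrib]
  refine sum_le_sum fun g _ => ind_le_add fun h => ?_
  by_contra hc
  push Not at hc
  exact h (hc.1.trans hc.2)

lemma sep_aut (f : V → Fin n) (h : Γ ≃g Γ) (x y : V) : sep Γ f (h x) (h y) = sep Γ f x y :=
  Equiv.sum_comp (Equiv.mulRight h) (fun g : Γ ≃g Γ => ind (f (g x) ≠ f (g y)))

lemma card_sub_sep (f : V → Fin n) (x y : V) :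
    Fintype.card (Γ ≃g Γ) - sep Γ f x y = ∑ g : Γ ≃g Γ, ind (f (g x) = f (g y)) := by
  unfold sep
  simp only [ne_eq, ind_not, sum_sub_distrib]
  simp

omit [Fintype (Γ ≃g Γ)] in
lemma small_aut (f : V → Fin n) (W : Set V) (h : Γ ≃g Γ) (x : V) :
    Small (f ∘ h) (h ⁻¹' W) x ↔ Small f W (h x) := by
  unfold Small
  rw [Set.preimage_comp, ← Set.preimage_inter, sz_preimage, sz_preimage]
  rfl

lemma card_pos_of (x : V) : (0 : ℝ) < Fintype.card V := by
  have : Nonempty V := ⟨x⟩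
  exact_mod_cast Fintype.card_pos

lemma small_pairs (hΓ : IsVertexTransitive Γ) (ht : 0 < t) (H : Hyp Γ n t) {f : V → Fin n}
    (hf : Good Γ t f) (x : V) :
    10 * ∑ g : Γ ≃g Γ, ∑ g' : Γ ≃g Γ, ind (Small (f ∘ g) ((f ∘ g') ⁻¹' {(f ∘ g') x}) x) ≤
      (Fintype.card (Γ ≃g Γ) : ℝ) ^ 2 := by
  have h1 := card_mul_eq_sum hΓ (fun x => ∑ g : Γ ≃g Γ, ∑ g' : Γ ≃g Γ,
    ind (Small (f ∘ g) ((f ∘ g') ⁻¹' {(f ∘ g') x}) x)) (by
      intro h x
      rw [← Equiv.sum_comp (Equiv.mulRight h) (fun g : Γ ≃g Γ => ∑ g' : Γ ≃g Γ,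
        ind (Small (f ∘ g) ((f ∘ g') ⁻¹' {(f ∘ g') x}) x))]
      refine sum_congr rfl fun g _ => ?_
      rw [← Equiv.sum_comp (Equiv.mulRight h) (fun g' : Γ ≃g Γ =>
        ind (Small (f ∘ (Equiv.mulRight h g)) ((f ∘ g') ⁻¹' {(f ∘ g') x}) x))]
      refine sum_congr rfl fun g' _ => ind_congr ?_
      exact (small_aut (f ∘ g) ((f ∘ g') ⁻¹' {(f ∘ g') (h x)}) h x).symm) x
  rw [sum_comm (s := univ (α := V))] at h1
  have h2 : 10 * ∑ g : Γ ≃g Γ, ∑ z, ∑ g' : Γ ≃g Γ,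
      ind (Small (f ∘ g) ((f ∘ g') ⁻¹' {(f ∘ g') z}) z) ≤
      ∑ _g : Γ ≃g Γ, ∑ _g' : Γ ≃g Γ, (Fintype.card V : ℝ) := by
    rw [mul_sum]
    refine sum_le_sum fun g _ => ?_
    rw [sum_comm, mul_sum]
    exact sum_le_sum fun g' _ => small_count_two ht H (hf.comp g) (hf.comp g')
  simp only [sum_const, card_univ, nsmul_eq_mul] at h2
  rw [← h1] at h2
  refine le_of_mul_le_mul_left ?_ (card_pos_of x)
  nlinarith

lemma sep_gap (hΓ : IsVertexTransitive Γ) (ht : 0 < t) (H : Hyp Γ n t) {f : V → Fin n}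
    (hf : Good Γ t f) (x y : V) :
    3 * sep Γ f x y < Fintype.card (Γ ≃g Γ) ∨ 2 * Fintype.card (Γ ≃g Γ) < 3 * sep Γ f x y := by
  have h1 := small_pairs hΓ ht H hf x
  have h2 := small_pairs hΓ ht H hf y
  have h3 : (Fintype.card (Γ ≃g Γ) - sep Γ f x y) * sep Γ f x y ≤
      ∑ g : Γ ≃g Γ, ∑ g' : Γ ≃g Γ, ind (Small (f ∘ g) ((f ∘ g') ⁻¹' {(f ∘ g') x}) x) +
      ∑ g : Γ ≃g Γ, ∑ g' : Γ ≃g Γ, ind (Small (f ∘ g) ((f ∘ g') ⁻¹' {(f ∘ g') y}) y) := by
    rw [card_sub_sep, sep, sum_mul_sum, ← sum_add_distrib]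
    refine sum_le_sum fun g _ => ?_
    rw [← sum_add_distrib]
    refine sum_le_sum fun g' _ => ?_
    rw [← ind_and]
    refine ind_le_add fun h => small_or ?_ h.1
    exact Set.disjoint_left.mpr fun v hv hv' => h.2 (hv.symm.trans hv')
  have h4 : (0 : ℝ) < Fintype.card (Γ ≃g Γ) := by exact_mod_cast Fintype.card_pos
  by_contra hc
  push Not at hc
  obtain ⟨h5, h6⟩ := hc
  nlinarith [mul_nonneg (sub_nonneg.mpr h5) (sub_nonneg.mpr h6), mul_pos h4 h4]

lemma sum_cut_aut (hΓ : IsVertexTransitive Γ) {f : V → Fin n} (hf : Good Γ t f) (x : V) :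
    ∑ g : Γ ≃g Γ, cut Γ (f ∘ g) x ≤ Fintype.card (Γ ≃g Γ) * t := by
  simp only [cut_comp]
  have h1 := sum_aut_comp hΓ (cut Γ f) x
  have h2 := mul_le_mul_of_nonneg_left hf.sum_cut_le
    (Nat.cast_nonneg (α := ℝ) (Fintype.card (Γ ≃g Γ)))
  refine le_of_mul_le_mul_left ?_ (card_pos_of x)
  linarith

lemma small_count_aut (hΓ : IsVertexTransitive Γ) (ht : 0 < t) (H : Hyp Γ n t) {f : V → Fin n}
    (hf : Good Γ t f) (W : Set V) :
    20 * t * ∑ g : Γ ≃g Γ, ∑ x, ind (x ∈ W ∧ Small (f ∘ g) W x) ≤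
      Fintype.card (Γ ≃g Γ) * (bd Γ W + t * sz W) := by
  have h1 := sum_le_sum fun g (_ : g ∈ univ (α := Γ ≃g Γ)) => small_count ht H (hf.comp g) W
  rw [← mul_sum, sum_add_distrib, sum_const, card_univ, nsmul_eq_mul,
    sum_comm (f := fun (g : Γ ≃g Γ) (x : V) => ind (x ∈ W) * cut Γ (f ∘ g) x)] at h1
  have h2 : ∑ x, ∑ g : Γ ≃g Γ, ind (x ∈ W) * cut Γ (f ∘ g) x ≤
      ∑ x, ind (x ∈ W) * (Fintype.card (Γ ≃g Γ) * t) := by
    refine sum_le_sum fun x _ => ?_
    rw [← mul_sum]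
    exact mul_le_mul_of_nonneg_left (sum_cut_aut hΓ hf x) (ind_nonneg _)
  rw [← sum_mul] at h2
  unfold sz
  linarith

end Pool.Agent.MP_f363fd_co

end

-- part MP_f363fd_co.Main
section

namespace Pool.Agent.MP_f363fd_co

open Finset Function

set_option linter.unusedSectionVars false

variable {V : Type} [Fintype V] {Γ : SimpleGraph V} {n : ℕ} {t : ℝ} [Fintype (Γ ≃g Γ)]

section
variable (hΓ : IsVertexTransitive Γ) (ht : 0 < t) (H : Hyp Γ n t) {f : V → Fin n}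
  (hf : Good Γ t f)

/-- The invariant equivalence relation. -/
def blocks : Setoid V where
  r x y := 3 * sep Γ f x y < Fintype.card (Γ ≃g Γ)
  iseqv :=
    { refl := fun x => by
        rw [sep_self, mul_zero]
        exact_mod_cast Fintype.card_pos
      symm := fun {x y} h => by rwa [sep_symm]
      trans := fun {x y z} h1 h2 => by
        have h3 := sep_triangle (Γ := Γ) f x y z
        rcases sep_gap hΓ ht H hf x z with h | h
        · exact h
        · linarith }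

lemma mk_eq_iff (x y : V) :
    Quotient.mk (blocks hΓ ht H hf) x = Quotient.mk (blocks hΓ ht H hf) y ↔
      3 * sep Γ f x y < Fintype.card (Γ ≃g Γ) := Quotient.eq

lemma cut_blocks (x : V) : 2 * cut Γ (Quotient.mk (blocks hΓ ht H hf)) x ≤ 3 * t := by
  have h1 := sum_cut_aut hΓ hf x
  have h4 : (0 : ℝ) < Fintype.card (Γ ≃g Γ) := by exact_mod_cast Fintype.card_pos
  have h2 : Fintype.card (Γ ≃g Γ) * (2 * cut Γ (Quotient.mk (blocks hΓ ht H hf)) x) ≤
      3 * ∑ g : Γ ≃g Γ, cut Γ (f ∘ g) x := by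
    unfold cut
    rw [sum_comm, mul_sum, mul_sum, mul_sum]
    refine sum_le_sum fun y _ => ?_
    simp only [ind_and, ← mul_sum]
    by_cases hxy : Γ.Adj x y
    · rw [ind_pos hxy, one_mul, one_mul]
      have h5 : ∑ g : Γ ≃g Γ, ind ((f ∘ g) y ≠ (f ∘ g) x) = sep Γ f y x := rfl
      rw [h5]
      by_cases h6 : Quotient.mk (blocks hΓ ht H hf) y = Quotient.mk (blocks hΓ ht H hf) x
      · rw [ind_neg (not_not.mpr h6), mul_zero, mul_zero, ← h5]
        exact mul_nonneg (by norm_num) (sum_nonneg fun _ _ => ind_nonneg _)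
      · rw [ind_pos h6]
        rw [mk_eq_iff] at h6
        rcases sep_gap hΓ ht H hf y x with h | h
        · exact absurd h h6
        · linarith
    · simp [ind_neg hxy]
  refine le_of_mul_le_mul_left ?_ h4
  linarith

lemma sum_cut_blocks (W : Set V) :
    2 * ∑ x, ind (x ∈ W) * cut Γ (Quotient.mk (blocks hΓ ht H hf)) x ≤ 3 * t * sz W := by
  unfold sz
  rw [mul_sum, mul_sum]
  refine sum_le_sum fun x _ => ?_
  have := mul_le_mul_of_nonneg_left (cut_blocks hΓ ht H hf x) (ind_nonneg (x ∈ W))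
  linarith

lemma bd_union_blocks (W : Set V) (hW : ∀ x y, Quotient.mk (blocks hΓ ht H hf) y =
    Quotient.mk (blocks hΓ ht H hf) x → x ∈ W → y ∈ W) : 2 * bd Γ W ≤ 3 * t * sz W := by
  have h1 := bd_le_cut Γ (Quotient.mk (blocks hΓ ht H hf)) W hW
  have h2 := sum_cut_blocks hΓ ht H hf W
  linarith

lemma card_blocks_le : Nat.card (Quotient (blocks hΓ ht H hf)) ≤ n := by
  classical
  by_contra hc
  push Not at hc
  have h1 : Fintype.card (Fin (n + 1)) ≤ Fintype.card (Quotient (blocks hΓ ht H hf)) := by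
    rw [Fintype.card_fin, ← Nat.card_eq_fintype_card]; exact hc
  obtain ⟨e⟩ := Function.Embedding.nonempty_of_card_le h1
  have hπ : Surjective (invFun e) := invFun_surjective e.injective
  have hF : Surjective (invFun e ∘ Quotient.mk (blocks hΓ ht H hf)) :=
    hπ.comp Quotient.mk_surjective
  obtain ⟨i, hi⟩ := H _ hF
  have h2 := bd_union_blocks hΓ ht H hf ((invFun e ∘ Quotient.mk (blocks hΓ ht H hf)) ⁻¹' {i})
    (fun x y h hx => by
      simp only [Set.mem_preimage, comp_apply, Set.mem_singleton_iff] at hx ⊢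
      rw [h, hx])
  have h3 : 0 < sz ((invFun e ∘ Quotient.mk (blocks hΓ ht H hf)) ⁻¹' {i}) := sz_pos (hF i)
  nlinarith

include hΓ ht H hf in
lemma no_split {S T : Set V} (hS : S.Nonempty) (hT : T.Nonempty) (hd : Disjoint S T)
    (hST : ∀ x ∈ S, ∀ y ∈ T, 3 * sep Γ f x y < Fintype.card (Γ ≃g Γ))
    (hbS : 2 * bd Γ S ≤ 5 * t * sz S) (hbT : 2 * bd Γ T ≤ 11 * t * sz T) : False := by
  have h4 : (0 : ℝ) < Fintype.card (Γ ≃g Γ) := by exact_mod_cast Fintype.card_pos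
  have hS0 := sz_pos hS
  have hT0 := sz_pos hT
  have h1 := small_count_aut hΓ ht H hf S
  have h2 := small_count_aut hΓ ht H hf T
  set a := ∑ g : Γ ≃g Γ, ∑ x, ind (x ∈ S ∧ Small (f ∘ g) S x) with ha
  set b := ∑ g : Γ ≃g Γ, ∑ x, ind (x ∈ T ∧ Small (f ∘ g) T x) with hb
  set D : ℝ := (Fintype.card (Γ ≃g Γ) : ℝ) with hD
  have h1' : 40 * a ≤ 7 * D * sz S := by
    refine le_of_mul_le_mul_left ?_ ht
    nlinarith
  have h2' : 40 * b ≤ 13 * D * sz T := by
    refine le_of_mul_le_mul_left ?_ ht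
    nlinarith
  have h3 : 2 * D * (sz S * sz T) ≤ 3 * (a * sz T + sz S * b) := by
    have h5 : a * sz T + sz S * b = ∑ x, ∑ y, ∑ g : Γ ≃g Γ,
        (ind (x ∈ S ∧ Small (f ∘ g) S x) * ind (y ∈ T) +
          ind (x ∈ S) * ind (y ∈ T ∧ Small (f ∘ g) T y)) := by
      simp only [sum_add_distrib, ← sum_mul, ← mul_sum]
      rw [ha, hb, sum_comm, sum_comm (s := univ (α := Γ ≃g Γ))]
      rfl
    rw [h5, sz, sz, sum_mul_sum, mul_sum, mul_sum]
    refine sum_le_sum fun x _ => ?_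
    rw [mul_sum, mul_sum]
    refine sum_le_sum fun y _ => ?_
    by_cases hx : x ∈ S
    · by_cases hy : y ∈ T
      · have h6 := hST x hx y hy
        have h7 := card_sub_sep (Γ := Γ) f x y
        have h8 : ∑ g : Γ ≃g Γ, ind (f (g x) = f (g y)) ≤ ∑ g : Γ ≃g Γ,
            (ind (x ∈ S ∧ Small (f ∘ g) S x) * ind (y ∈ T) +
              ind (x ∈ S) * ind (y ∈ T ∧ Small (f ∘ g) T y)) := by
          refine sum_le_sum fun g _ => ?_
          rw [ind_pos hx, ind_pos hy, mul_one, one_mul]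
          refine ind_le_add fun h => ?_
          rcases small_or (f := f ∘ g) hd h with h | h
          · exact Or.inl ⟨hx, h⟩
          · exact Or.inr ⟨hy, h⟩
        rw [ind_pos hx, ind_pos hy] at h8 ⊢
        linarith
      · rw [ind_neg hy, mul_zero, mul_zero]
        refine mul_nonneg (by norm_num) (sum_nonneg fun g _ => ?_)
        have := mul_nonneg (ind_nonneg (x ∈ S)) (ind_nonneg (y ∈ T ∧ Small (f ∘ g) T y))
        linarith
    · rw [ind_neg hx, zero_mul, mul_zero]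
      refine mul_nonneg (by norm_num) (sum_nonneg fun g _ => ?_)
      have := mul_nonneg (ind_nonneg (x ∈ S ∧ Small (f ∘ g) S x)) (ind_nonneg (y ∈ T))
      linarith
  have h5 := mul_le_mul_of_nonneg_right h1' hT0.le
  have h6 := mul_le_mul_of_nonneg_left h2' hS0.le
  have h7 := mul_pos h4 (mul_pos hS0 hT0)
  nlinarith

lemma le_card_blocks : n ≤ Nat.card (Quotient (blocks hΓ ht H hf)) := by
  classical
  by_contra hc
  push Not at hc
  set q := Quotient.mk (blocks hΓ ht H hf) with hq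
  have h1 : ∃ j : Fin n, ∀ c, 2 * sz (f ⁻¹' {j} ∩ q ⁻¹' {c}) ≤ sz (q ⁻¹' {c}) := by
    by_contra h0
    push Not at h0
    choose c hc' using h0
    have hinj : Injective c := by
      intro i j hij
      by_contra hne
      have h2 := hc' i
      have h3 := hc' j
      rw [← hij] at h3
      have := sz_add_le (S := f ⁻¹' {i} ∩ q ⁻¹' {c i}) (T := f ⁻¹' {j} ∩ q ⁻¹' {c i})
        (U := q ⁻¹' {c i}) Set.inter_subset_right Set.inter_subset_right
        (Set.disjoint_left.mpr fun v hv hv' => hne (hv.1.symm.trans hv'.1))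
      linarith
    have := Nat.card_le_card_of_injective c hinj
    rw [Nat.card_eq_fintype_card, Fintype.card_fin] at this
    omega
  obtain ⟨j, hj⟩ := h1
  have h2 := sum_bd_inter_fiber Γ q (f ⁻¹' {j})
  have h3 := sum_cut_blocks hΓ ht H hf (f ⁻¹' {j})
  have h4 := hf.le j
  have h5 := sum_sz_fiber q (f ⁻¹' {j})
  have h6 : ∃ c, (f ⁻¹' {j} ∩ q ⁻¹' {c}).Nonempty ∧
      2 * bd Γ (f ⁻¹' {j} ∩ q ⁻¹' {c}) ≤ 5 * t * sz (f ⁻¹' {j} ∩ q ⁻¹' {c}) := by
    by_contra h0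
    push Not at h0
    obtain ⟨x, hx⟩ := hf.surj j
    have h7 : ∑ c, 5 * t * sz (f ⁻¹' {j} ∩ q ⁻¹' {c}) < ∑ c, 2 * bd Γ (f ⁻¹' {j} ∩ q ⁻¹' {c}) := by
      refine sum_lt_sum (fun c _ => ?_) ⟨q x, mem_univ _, h0 _ ⟨x, hx, rfl⟩⟩
      rcases (f ⁻¹' {j} ∩ q ⁻¹' {c}).eq_empty_or_nonempty with h | h
      · rw [h, sz_empty, mul_zero]
        exact mul_nonneg (by norm_num) (bd_nonneg Γ _)
      · exact (h0 c h).le
    rw [← mul_sum, ← mul_sum, h5] at h7
    linarith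
  obtain ⟨c, hne, hb⟩ := h6
  have h7 := hj c
  have h8 := sz_diff (S := f ⁻¹' {j} ∩ q ⁻¹' {c}) (T := q ⁻¹' {c}) Set.inter_subset_right
  have h9 := bd_diff Γ (f ⁻¹' {j} ∩ q ⁻¹' {c}) (q ⁻¹' {c})
  have h10 := bd_union_blocks hΓ ht H hf (q ⁻¹' {c}) (fun x y h hx => h.trans hx)
  have h11 := sz_pos hne
  refine no_split hΓ ht H hf (S := f ⁻¹' {j} ∩ q ⁻¹' {c})
    (T := q ⁻¹' {c} \ (f ⁻¹' {j} ∩ q ⁻¹' {c})) hne ?_ Set.disjoint_sdiff_right ?_ hb ?_
  · by_contra h0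
    rw [Set.not_nonempty_iff_eq_empty.mp h0, sz_empty] at h8
    linarith
  · intro x hx y hy
    rw [← mk_eq_iff hΓ ht H hf]
    exact hx.2.trans hy.1.symm
  · rw [h8]
    nlinarith

include hΓ ht H hf in
theorem hasImprimitivitySystem : HasImprimitivitySystem Γ n := by
  classical
  have h1 : Nat.card (Quotient (blocks hΓ ht H hf)) = n :=
    le_antisymm (card_blocks_le hΓ ht H hf) (le_card_blocks hΓ ht H hf)
  let e := Finite.equivFinOfCardEq h1
  refine ⟨e ∘ Quotient.mk (blocks hΓ ht H hf), e.surjective.comp Quotient.mk_surjective, ?_⟩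
  intro g i
  obtain ⟨x, hx⟩ := (e.surjective.comp Quotient.mk_surjective) i
  refine ⟨e (Quotient.mk (blocks hΓ ht H hf) (g x)), ?_⟩
  ext y
  obtain ⟨z, rfl⟩ := g.surjective y
  rw [g.injective.mem_set_image]
  simp only [Set.mem_preimage, Set.mem_singleton_iff, ← hx, comp_apply, e.apply_eq_iff_eq,
    mk_eq_iff, sep_aut]

end

theorem main {V : Type} [Finite V] (Γ : SimpleGraph V) (hΓ : IsVertexTransitive Γ) (n : ℕ)
    (hn : 2 ≤ n) (hnV : n < Nat.card V) (h : ¬ HasImprimitivitySystem Γ n) :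
    multiwayConst Γ (n + 1) ≤ 22 * multiwayConst Γ n := by
  classical
  have := Fintype.ofFinite V
  have : Finite (Γ ≃g Γ) := Finite.of_injective (fun g : Γ ≃g Γ => (g : V → V)) DFunLike.coe_injective
  have := Fintype.ofFinite (Γ ≃g Γ)
  by_contra hc
  push Not at hc
  have hn0 : Nonempty (Fin n) := ⟨⟨0, by omega⟩⟩
  have hne : Nonempty {f : V → Fin n // Surjective f} := by
    have h1 : Fintype.card (Fin n) ≤ Fintype.card V := by
      rw [Fintype.card_fin, ← Nat.card_eq_fintype_card]; exact hnV.le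
    obtain ⟨e⟩ := Function.Embedding.nonempty_of_card_le h1
    exact ⟨⟨invFun e, invFun_surjective e.injective⟩⟩
  have h0 : 0 ≤ multiwayConst Γ n :=
    Real.iInf_nonneg fun f => Real.iSup_nonneg fun i => by positivity
  set t := multiwayConst Γ (n + 1) / 22 with ht
  have ht1 : multiwayConst Γ n < t := by rw [ht]; linarith
  have ht0 : 0 < t := h0.trans_lt ht1
  obtain ⟨f, hf⟩ := exists_lt_of_ciInf_lt ht1
  have hgood : Good Γ t f.1 := by
    refine ⟨f.2, fun i => ?_⟩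
    have h1 := (le_ciSup (Finite.bddAbove_range _) i).trans hf.le
    rw [← bd_eq_ncard, ← sz_eq_ncard, div_le_iff₀ (sz_pos (S := f.1 ⁻¹' {i}) (f.2 i))] at h1
    exact h1
  have H : Hyp Γ n t := by
    intro F hF
    have h1 : multiwayConst Γ (n + 1) ≤ _ := ciInf_le (Finite.bddBelow_range _) ⟨F, hF⟩
    obtain ⟨i, hi⟩ := exists_eq_ciSup_of_finite (f := fun i : Fin (n + 1) =>
      ((edgeBoundary Γ (F ⁻¹' {i})).ncard : ℝ) / ((F ⁻¹' {i}).ncard : ℝ))
    refine ⟨i, ?_⟩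
    rw [← hi, ← bd_eq_ncard, ← sz_eq_ncard, le_div_iff₀ (sz_pos (S := F ⁻¹' {i}) (hF i))] at h1
    have h2 : 22 * t = multiwayConst Γ (n + 1) := by rw [ht]; ring
    rw [h2]
    exact h1
  exact h (hasImprimitivitySystem hΓ ht0 H hgood)

end Pool.Agent.MP_f363fd_co

end
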